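import Pool.Agent.P.MP_9167e9_an.Cell.Main

/-!
Module ADDR: local coordinates around a core point.
-/

noncomputable section
open scoped Classical

namespace Pool.Agent.P.MP_9167e9_an

namespace AD

open FreeGroup Bas CL

section Comb

variable {j D : ℕ}

/-- The labelling `0`, for which the core letters are `none` and `some 0`. -/
abbrev z0 : List (AL j D) → Fin j → ZMod D := fun _ _ => 0

/-- The tree part of a true address. -/
def tp : List (AL j D) → List (AL j D)
  | [] => []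
  | a :: w => if IsCore z0 (a :: w) then [] else a :: tp w

theorem core_tail {T : List (AL j D) → Fin j → ZMod D} {a : AL j D} {w : List (AL j D)}
    (h : IsCore T (a :: w)) : IsCore T w := by
  obtain ⟨i, _ | ι⟩ := a
  · exact h
  · exact h.1

theorem root_core {T : List (AL j D) → Fin j → ZMod D} : ∀ {w}, IsCore T w → root T w = w
  | [], _ => rfl
  | _ :: _, h => if_pos h

theorem tp_core : ∀ {w : List (AL j D)}, IsCore z0 w → tp w = []
  | [], _ => rfl
  | _ :: _, h => if_pos h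

theorem core_root (T : List (AL j D) → Fin j → ZMod D) : ∀ w, IsCore T (root T w)
  | [] => trivial
  | a :: w => by
    rw [root]
    split_ifs with h
    exacts [h, core_root T w]

theorem tp_root : ∀ w : List (AL j D), tp w ++ root z0 w = w
  | [] => rfl
  | a :: w => by
    rw [root, tp]
    split_ifs with h
    exacts [rfl, congrArg (a :: ·) (tp_root w)]

theorem root_suffix (T : List (AL j D) → Fin j → ZMod D) : ∀ w, root T w <:+ w
  | [] => List.suffix_rfl
  | a :: w => by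
    rw [root]
    split_ifs with h
    exacts [List.suffix_rfl, (root_suffix T w).trans (List.suffix_cons a w)]

theorem AV_suffix {ρ : ℕ} {u w : List (AL j D)} (h : u <:+ w) (hw : AV ρ w) : AV ρ u :=
  ⟨hw.1.suffix h, h.length_le.trans hw.2⟩

theorem AV_tail {ρ : ℕ} {a : AL j D} {w : List (AL j D)} (hw : AV ρ (a :: w)) : AV ρ w :=
  AV_suffix (List.suffix_cons a w) hw

theorem AV_tp {ρ : ℕ} {w : List (AL j D)} (hw : AV ρ w) : AV ρ (tp w) :=
  ⟨List.IsChain.left_of_append (l₂ := root z0 w) (by rw [tp_root]; exact hw.1),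
    (List.IsPrefix.length_le ⟨_, tp_root w⟩).trans hw.2⟩

theorem TA_tp {ρ : ℕ} : ∀ {w : List (AL j D)}, AV ρ w → TA ρ (tp w)
  | [], h => ⟨h, by simp [tp]⟩
  | a :: w, h => by
    refine ⟨AV_tp h, fun l hl => ?_⟩
    rw [tp] at hl
    split_ifs at hl with h1
    · simp at hl
    by_cases h2 : IsCore z0 w
    · rw [tp_core h2] at hl
      obtain rfl : a = l := by simpa using hl
      obtain ⟨i, _ | ι⟩ := a
      · exact absurd h2 h1
      · refine ⟨by simp, fun h3 => h1 ⟨h2, fun h4 => ?_, Option.some.inj h3⟩⟩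
        obtain _ | ⟨l, w⟩ := w
        · simp at h4
        · obtain rfl : l = (i, none) := Option.some.inj h4
          exact ((List.isChain_cons_cons.1 h.1).1 rfl).2 rfl h3
    · refine (TA_tp (AV_tail h)).2 l ?_
      obtain _ | ⟨l1, w⟩ := w
      · exact absurd trivial h2
      · rw [tp, if_neg h2] at hl ⊢
        rwa [List.getLast?_cons_cons] at hl

theorem not_core {ρ : ℕ} {r : List (AL j D)} : ∀ {u : List (AL j D)}, TA ρ u → u ≠ [] →
    ¬ IsCore z0 (u ++ r)
  | [], _, h => absurd rfl h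
  | [(i, none)], h, _ => absurd rfl (h.2 (i, none) rfl).1
  | [(i, some ι)], h, _ => fun h1 => (h.2 (i, some ι) rfl).2 (congrArg some h1.2.2)
  | _ :: _ :: _, h, _ => fun h1 => not_core h.tail (List.cons_ne_nil _ _) (core_tail h1)

theorem tp_append {ρ : ℕ} {r : List (AL j D)} (hr : IsCore z0 r) :
    ∀ {u : List (AL j D)}, TA ρ u → tp (u ++ r) = u ∧ root z0 (u ++ r) = r
  | [], _ => ⟨tp_core hr, root_core hr⟩
  | a :: u, h => by
    have h1 := not_core (r := r) h (List.cons_ne_nil _ _)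
    rw [List.cons_append] at h1 ⊢
    rw [tp, root, if_neg h1, if_neg h1, (tp_append hr h.tail).1]
    exact ⟨rfl, (tp_append hr h.tail).2⟩

theorem sl_red {T : List (AL j D) → Fin j → ZMod D} :
    ∀ {w}, IsCore T w → w.IsChain AOk → IsReduced (sl w)
  | [], _, _ => IsReduced.nil
  | [_], _, _ => IsReduced.singleton
  | l :: l' :: w, h, h1 => by
    rw [List.isChain_cons_cons] at h1
    refine isReduced_cons_cons.2 ⟨fun hs => ?_, sl_red (core_tail h) h1.2⟩
    obtain ⟨i, _ | ι⟩ := l <;> obtain ⟨i', _ | ι'⟩ := l'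
    · rfl
    · exact absurd ((h1.1 hs).1 rfl) (by simp)
    · obtain rfl : i = i' := hs
      exact absurd rfl h.2.1
    · rfl

/-- The core address of a slot word. -/
def ca (D : ℕ) (u : List (Lt j)) : List (AL j D) :=
  u.map fun l => (l.1, if l.2 then some 0 else none)

theorem ca_sl : ∀ {w : List (AL j D)}, IsCore z0 w → ca D (sl w) = w
  | [], _ => rfl
  | (_, none) :: _, h => congrArg (_ :: ·) (ca_sl h)
  | (i, some ι) :: _, h => by
    obtain rfl : ι = 0 := h.2.2
    exact congrArg (_ :: ·) (ca_sl h.1)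

theorem sl_ca : ∀ u : List (Lt j), sl (ca D u) = u
  | [] => rfl
  | (_, true) :: u => congrArg (_ :: ·) (sl_ca u)
  | (_, false) :: u => congrArg (_ :: ·) (sl_ca u)

theorem ca_core : ∀ {u : List (Lt j)}, IsReduced u → IsCore z0 (ca D u) ∧ (ca D u).IsChain AOk
  | [], _ => ⟨trivial, .nil⟩
  | [(_, true)], _ => ⟨⟨trivial, by simp, rfl⟩, .singleton _⟩
  | [(_, false)], _ => ⟨trivial, .singleton _⟩
  | (i, b) :: (i', b') :: u, h => by
    obtain ⟨h1, h2⟩ := isReduced_cons_cons.1 h
    obtain ⟨h3, h4⟩ := ca_core h2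
    refine ⟨?_, List.isChain_cons_cons.2 ⟨fun e => ?_, h4⟩⟩
    · cases b
      · exact h3
      · refine ⟨h3, fun e => ?_, rfl⟩
        obtain ⟨rfl, e2⟩ := Prod.ext_iff.1 (Option.some.inj e)
        obtain rfl : true = b' := h1 rfl
        simp at e2
    · obtain rfl : b = b' := h1 e
      cases b <;> simp

variable (T : List (AL j D) → Fin j → ZMod D)

/-- From hybrid to true addresses. -/
def bw : List (AL j D) → List (AL j D)
  | [] => []
  | (i, none) :: w => (i, none) :: bw w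
  | (i, some ι) :: w =>
      (i, some (if w.head? = some (i, none) then ι else ι - T (bw w) i)) :: bw w

/-- From true to hybrid addresses. -/
def vis : List (AL j D) → List (AL j D)
  | [] => []
  | (i, none) :: w => (i, none) :: vis w
  | (i, some ι) :: w => (i, some (if w.head? = some (i, none) then ι else ι + T w i)) :: vis w

theorem head_bw (i : Fin j) : ∀ w, (bw T w).head? = some (i, none) ↔ w.head? = some (i, none)
  | [] => Iff.rfl
  | (_, none) :: _ => Iff.rfl
  | (_, some _) :: _ => by simp [bw]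

theorem head_vis (i : Fin j) : ∀ w, (vis T w).head? = some (i, none) ↔ w.head? = some (i, none)
  | [] => Iff.rfl
  | (_, none) :: _ => Iff.rfl
  | (_, some _) :: _ => by simp [vis]

theorem bw_vis : ∀ w, bw T (vis T w) = w
  | [] => rfl
  | (_, none) :: w => congrArg (_ :: ·) (bw_vis w)
  | (i, some ι) :: w => by
    rw [vis, bw, bw_vis w]
    simp only [head_vis]
    split_ifs <;> simp

theorem vis_bw : ∀ w, vis T (bw T w) = w
  | [] => rfl
  | (_, none) :: w => congrArg (_ :: ·) (vis_bw w)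
  | (i, some ι) :: w => by
    rw [bw, vis, vis_bw w]
    simp only [head_bw]
    split_ifs <;> simp

theorem sl_bw : ∀ w, sl (bw T w) = sl w
  | [] => rfl
  | (_, none) :: w => congrArg (_ :: ·) (sl_bw w)
  | (_, some _) :: w => congrArg (_ :: ·) (sl_bw w)

theorem length_bw (w : List (AL j D)) : (bw T w).length = w.length := by
  simpa [sl] using congrArg List.length (sl_bw T w)

theorem chain_bw : ∀ w, (bw T w).IsChain AOk ↔ w.IsChain AOk
  | [] => Iff.rfl
  | [(_, none)] => Iff.rfl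
  | [(_, some _)] => by simp [bw]
  | (i, o) :: (i', o') :: w => by
    have ih := chain_bw ((i', o') :: w)
    rw [List.isChain_cons_cons, ← ih]
    obtain _ | ι := o <;> obtain _ | ι' := o' <;>
      simp only [bw, List.isChain_cons_cons] <;> refine and_congr_left' ?_ <;> simp [AOk]
    exact forall_congr' fun e => by simp [e]

theorem AV_bw {ρ : ℕ} (w : List (AL j D)) : AV ρ (bw T w) ↔ AV ρ w := by
  rw [AV, AV, chain_bw, length_bw]

theorem AV_vis {ρ : ℕ} (w : List (AL j D)) : AV ρ (vis T w) ↔ AV ρ w := by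
  rw [← AV_bw T, bw_vis]

variable {ρ : ℕ}

/-- The change from true to hybrid coordinates. -/
def Φ (T0 : Om j D ρ) : Om j D ρ := fun p => ext T0 (bw (ext T0) p.1.1) p.2

theorem ext_Φ (T0 : Om j D ρ) {w : List (AL j D)} (hw : AV ρ w) (i : Fin j) :
    ext (Φ T0) w i = ext T0 (bw (ext T0) w) i := dif_pos hw

theorem Φ_inj : Function.Injective (Φ : Om j D ρ → Om j D ρ) := by
  intro T1 T2 e
  have h1 : ∀ w, AV ρ w → bw (ext T1) w = bw (ext T2) w := by
    intro w hw
    induction w with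
    | nil => rfl
    | cons l w ih =>
      obtain ⟨i, _ | ι⟩ := l
      · rw [bw, bw, ih (AV_tail hw)]
      · rw [bw, bw, ← ext_Φ T1 (AV_tail hw), ← ext_Φ T2 (AV_tail hw), e, ih (AV_tail hw)]
  funext ⟨⟨w, hw⟩, i⟩
  have h2 := (AV_vis (ext T1) w).2 hw
  have h3 := ext_Φ T1 h2 i
  rw [e, ext_Φ T2 h2, ← h1 _ h2, bw_vis] at h3
  simpa only [ext, dif_pos hw] using h3.symm

theorem core_bw (T0 : Om j D ρ) : ∀ {w}, AV ρ w →
    (IsCore z0 (bw (ext T0) w) ↔ IsCore (ext (Φ T0)) w)
  | [], _ => Iff.rfl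
  | (_, none) :: w, h => core_bw T0 (w := w) (AV_tail h)
  | (i, some ι) :: w, h => by
    rw [bw, IsCore, IsCore, core_bw T0 (AV_tail h), ext_Φ T0 (AV_tail h), Ne, Ne, head_bw]
    refine and_congr_right' (and_congr_right fun h1 => ?_)
    rw [if_neg h1, sub_eq_zero]

theorem root_bw (T0 : Om j D ρ) : ∀ {w}, AV ρ w →
    bw (ext T0) (root (ext (Φ T0)) w) = root z0 (bw (ext T0) w)
  | [], _ => rfl
  | l :: w, h => by
    by_cases h1 : IsCore (ext (Φ T0)) (l :: w)
    · rw [root_core h1, root_core ((core_bw T0 h).2 h1)]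
    · have h2 := mt (core_bw T0 h).1 h1
      rw [root, if_neg h1, root_bw T0 (AV_tail h)]
      obtain ⟨i, _ | ι⟩ := l <;> exact (if_neg h2).symm

end Comb

theorem card_comp {A B X : Type} [Finite B] [Finite X] (ι : A → B) (hι : Function.Injective ι)
    (Φ : (A → X) → A → X) (hΦ : Function.Injective Φ) (Q : (A → X) → Prop) :
    Nat.card {f : B → X // Q (Φ (f ∘ ι))} * Nat.card (A → X) =
      Nat.card {g // Q g} * Nat.card (B → X) := by
  have : Finite A := Finite.of_injective ι hι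
  let e : (B → X) ≃ (A → X) × ({b // b ∉ Set.range ι} → X) :=
    (Equiv.piEquivPiSubtypeProd (· ∈ Set.range ι) fun _ => X).trans
      (Equiv.prodCongr (Equiv.arrowCongr (Equiv.ofInjective ι hι).symm (Equiv.refl X))
        (Equiv.refl _))
  let φ := Equiv.ofBijective Φ (Finite.injective_iff_bijective.1 hΦ)
  have h1 : {f : B → X // Q (Φ (f ∘ ι))} ≃ {g // Q g} × ({b // b ∉ Set.range ι} → X) :=
    ((e.trans (φ.prodCongr (Equiv.refl _))).subtypeEquiv (q := fun p => Q p.1)
      fun f => Iff.rfl).trans (Equiv.prodSubtypeFstEquivSubtypeProd)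
  rw [Nat.card_congr h1, Nat.card_congr e, Nat.card_prod, Nat.card_prod]
  ring

theorem go_append {j : ℕ} {V : Type} (τ : Fin j → Equiv.Perm V) (u u' : List (Lt j)) (v : V) :
    go τ (u ++ u') v = go τ u (go τ u' v) := List.foldr_append

theorem go_mk {j : ℕ} {V : Type} (τ : Fin j → Equiv.Perm V) (v : V) :
    ∀ u : List (Lt j), go τ u v = FreeGroup.lift τ (mk u) v
  | [] => by simp [go, mk_nil]
  | (i, true) :: u => by
    rw [mk_cons, mk_true, _root_.map_mul, lift_apply_of, Equiv.Perm.mul_apply, ← go_mk]; rfl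
  | (i, false) :: u => by
    rw [mk_cons, mk_false, _root_.map_mul, _root_.map_inv, lift_apply_of, Equiv.Perm.mul_apply,
      ← go_mk]; rfl

theorem go_inj {j g : ℕ} {V : Type} {τ : Fin j → Equiv.Perm V} (hg : Girth τ g) {v : V}
    {u u' : List (Lt j)} (hu : IsReduced u) (hu' : IsReduced u') (hl : u.length + u'.length < g)
    (e : go τ u v = go τ u' v) : u = u' := by
  obtain ⟨w, hw, e1⟩ := ex_red ((mk u)⁻¹ * mk u')
  by_cases h0 : w = []
  · rw [h0, mk_nil, inv_mul_eq_one] at e1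
    exact red_inj hu hu' e1
  · refine absurd ?_ (hg w hw h0 ?_ v)
    · rw [go_mk, ← e1, _root_.map_mul, _root_.map_inv, Equiv.Perm.mul_apply, ← go_mk, ← e, go_mk,
        inv_ap]
    · have := nr_mul (mk u)⁻¹ (mk u')
      rw [nr_inv, e1, nr_mk hw, nr_mk hu, nr_mk hu'] at this
      omega

variable {j h a b D : ℕ} [NeZero D] (K : Core j h a b)

/-- Where the label of a true address is stored. -/
def sto (v : K.V) (p : {w : List (AL j D) // AV (K.R ^ 14) w} × Fin j) :
    K.V × {w : List (AL j D) // AV (K.R ^ 14) w} × Fin j :=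
  (go K.τ (sl (root z0 p.1.1)) v, ⟨tp p.1.1, AV_tp p.1.2⟩, p.2)

omit [NeZero D] in
theorem sto_inj (hR : 1 ≤ K.R) (hg : Girth K.τ (10 ^ 4 * K.R ^ 15)) (v : K.V) :
    Function.Injective (sto (D := D) K v) := by
  rintro ⟨⟨w, hw⟩, i⟩ ⟨⟨w', hw'⟩, i'⟩ e
  have h1 := AV_suffix (root_suffix z0 w) hw
  have h2 := AV_suffix (root_suffix z0 w') hw'
  have h3 := go_inj hg (sl_red (core_root _ w) h1.1) (sl_red (core_root _ w') h2.1) (by
    have := h1.2
    have := h2.2
    have : K.R ^ 14 ≤ K.R ^ 15 := Nat.pow_le_pow_right hR (by norm_num)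
    have : 0 < K.R ^ 15 := by positivity
    simp only [sl, List.length_map]
    omega) (congrArg Prod.fst e)
  have h4 : tp w = tp w' := congrArg (·.2.1.1) e
  obtain rfl : i = i' := congrArg (·.2.2) e
  obtain rfl : w = w' := by
    rw [← tp_root w, ← tp_root w', h4, ← ca_sl (core_root _ w), h3, ca_sl (core_root _ w')]
  rfl

variable (t : K.V → Om j D (K.R ^ 14))

/-- The true labelling seen from `v`. -/
def tl (v : K.V) : Om j D (K.R ^ 14) := Function.uncurry t ∘ sto K v

omit [NeZero D] in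
theorem ext_tl (v : K.V) {w : List (AL j D)} (hw : AV (K.R ^ 14) w) (i : Fin j) :
    ext (tl K t v) w i = ext (t (go K.τ (sl (root z0 w)) v)) (tp w) i := by
  rw [ext, ext, dif_pos hw, dif_pos (AV_tp hw)]; rfl

theorem hw_eq (T0 : Om j D (K.R ^ 14)) (v : K.V) : ∀ {w}, AV (K.R ^ 14) w →
    K.hw (ext (Φ T0)) v w = K.aw (ext T0) v (bw (ext T0) w)
  | [], _ => rfl
  | (i, none) :: w, h1 => by
    rw [bw, Core.hw, Core.aw, hw_eq T0 v (AV_tail h1), ext_Φ T0 h1, sl_bw, bw]
  | (i, some ι) :: w, h1 => by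
    rw [bw, Core.hw, Core.aw, hw_eq T0 v (AV_tail h1), ext_Φ T0 (AV_tail h1), sl_bw]
    split_ifs <;> simp

variable {x : FreeGroup (cprm j h a b D).S}

/-- The point with true address `w` seen from `x`. -/
def ap (x : FreeGroup (cprm j h a b D).S) (w : List (AL j D)) : FreeGroup (cprm j h a b D).S :=
  K.aw (ext (tl K t ((K.cell t).vx x))) ((K.cell t).vx x) w * x

theorem cp_ap (w : List (AL j D)) :
    (K.cell t).cp (ap K t x w) = go (dbl K.τ) (sl w) ((K.cell t).cp x) := by
  rw [ap, aw_eq, cp_mk, sw_al]; rfl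

theorem vx_ap (w : List (AL j D)) :
    (K.cell t).vx (ap K t x w) = go K.τ (sl w) ((K.cell t).vx x) := by
  rw [ap, aw_eq, vx_mk, sw_al]; rfl

theorem lt_some {r : List (AL j D)} {i : Fin j} (h1 : AV (K.R ^ 14) r) (h2 : IsCore z0 r) :
    (lt K (ext (tl K t ((K.cell t).vx x))) ((K.cell t).vx x) (i, some 0) r).1 =
      (K.cell t).lab (K.τ i ((K.cell t).vx (ap K t x r))) i := by
  rw [vx_ap]
  simp only [lt, zero_add, ext_tl K t _ h1, root_core h2, tp_core h2]
  exact congrArg (fun y => (i, _, ext (t y) [] i)) (inv_ap _ _).symm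

theorem lt_none {r : List (AL j D)} {i : Fin j} (h1 : AV (K.R ^ 14) ((i, none) :: r))
    (h2 : IsCore z0 ((i, none) :: r)) :
    (lt K (ext (tl K t ((K.cell t).vx x))) ((K.cell t).vx x) (i, none) r).1 =
      (K.cell t).lab ((K.cell t).vx (ap K t x r)) i := by
  rw [vx_ap]
  simp only [lt, ext_tl K t _ h1, root_core h2, tp_core h2]
  rfl

theorem Qc_ap (hx : (K.cell t).Qc x) : ∀ {r}, AV (K.R ^ 14) r → IsCore z0 r →
    (K.cell t).Qc (ap K t x r)
  | [], _, _ => by rwa [ap, Core.aw, one_mul]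
  | (i, none) :: r, h1, h2 => by
    have := Cell.Qc.bwd _ i (Qc_ap hx (AV_tail h1) h2)
    rwa [← lt_none K t h1 h2, ap, ← mul_assoc] at this
  | (i, some ι) :: r, h1, h2 => by
    obtain rfl : ι = 0 := h2.2.2
    have := Cell.Qc.fwd _ i (Qc_ap hx (AV_tail h1) h2.1)
    erw [← lt_some K t (AV_tail h1) h2.1] at this
    rwa [ap, ← mul_assoc] at this

theorem ap_append {r : List (AL j D)} (hr : IsCore z0 r) : ∀ {u}, TA (K.R ^ 14) u →
    AV (K.R ^ 14) (u ++ r) → ap K t x (u ++ r) = pt K t (ap K t x r) u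
  | [], _, _ => (pt_nil K t _).symm
  | (i, none) :: u, h1, h2 => by
    rw [pt_none, ← ap_append hr h1.tail (AV_tail h2), lx, vx_ap, lt]
    have := ext_tl K t ((K.cell t).vx x) h2 i
    rw [(tp_append hr h1).1, (tp_append hr h1).2] at this
    rw [← this, ← go_append, sl, sl, ← List.map_append]
    exact mul_assoc _ _ _
  | (i, some ι) :: u, h1, h2 => by
    rw [pt_some, ← ap_append hr h1.tail (AV_tail h2), lx, vx_ap, lt]
    have := ext_tl K t ((K.cell t).vx x) (w := u ++ r) (AV_tail h2) i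
    rw [(tp_append hr h1.tail).1, (tp_append hr h1.tail).2] at this
    rw [← this, ← go_append, sl, sl, ← List.map_append]
    exact mul_assoc _ _ _

theorem ap_eq {w : List (AL j D)} (hw : AV (K.R ^ 14) w) :
    ap K t x w = pt K t (ap K t x (root z0 w)) (tp w) := by
  rw [← ap_append K t (core_root _ w) (TA_tp hw) (by rwa [tp_root]), tp_root]

theorem ap_ca : ∀ {v : List ((cprm j h a b D).S × Bool)}, IsReduced (sw v) →
    v.length ≤ K.R ^ 14 → Wk (CE (K.cell t)) x v → mk v * x = ap K t x (ca D (sw v))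
  | [], _, _, _ => rfl
  | (s, true) :: v, h1, h2, h3 => by
    have ih := ap_ca (red_tail h1) ((Nat.le_succ _).trans h2) h3.1
    have h4 := ca_core (D := D) (red_tail h1)
    have h5 := h3.2.2
    rw [ih] at h5
    erw [← lt_some K t ⟨h4.2, by simpa [ca, sw] using (Nat.le_succ _).trans h2⟩ h4.1] at h5
    rw [mk_cons, mk_true, mul_assoc, ih]
    exact (congrArg (fun s => of s * _) h5).trans (mul_assoc _ _ _).symm
  | (s, false) :: v, h1, h2, h3 => by
    have ih := ap_ca (red_tail h1) ((Nat.le_succ _).trans h2) h3.1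
    have h4 := ca_core (D := D) h1
    have h5 := h3.2.2
    rw [vx_inv, ap_inv, ih] at h5
    erw [← lt_none K t ⟨h4.2, by simpa [ca, sw] using h2⟩ h4.1] at h5
    rw [mk_cons, mk_false, mul_assoc, ih]
    exact (congrArg (fun s => (of s)⁻¹ * _) h5).trans (mul_assoc _ _ _).symm

theorem read (hx : (K.cell t).Qc x) {z : FreeGroup (cprm j h a b D).S} (hz : nr z ≤ K.R ^ 14)
    (h1 : z * x ∈ (K.cell t).Qp) : ∃ w, AV (K.R ^ 14) w ∧ z * x = ap K t x w := by
  obtain ⟨y, u, hy, hu, e⟩ := (mem_Qp K t _).1 h1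
  have h2 := gate K t hy hx hu
  rw [← e, mul_inv_cancel_right] at h2
  obtain ⟨v, hv, e1⟩ := ex_red (y * x⁻¹)
  rw [e1, nr_mk hv] at h2
  obtain rfl : y = mk v * x := by rw [← e1, inv_mul_cancel_right]
  have h3 := wk_core (lab_slot K t) hv hx hy
  have h4 := CL.sw_red (lab_slot K t) hv h3
  have h5 := ca_core (D := D) h4
  have h6 : AV (K.R ^ 14) (u ++ ca D (sw v)) := by
    refine ⟨List.isChain_append.2 ⟨hu.1.1, h5.2, fun l hl l' _ _ => ?_⟩, ?_⟩
    · exact ⟨fun h7 => absurd h7 (hu.2 l hl).1, fun _ => (hu.2 l hl).2⟩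
    · simp only [ca, sw, List.length_append, List.length_map]
      omega
  exact ⟨_, h6, by rw [ap_append K t h5.1 hu h6, ← ap_ca K t h4 (by omega) h3, e]⟩

theorem out (hx : (K.cell t).Qc x) : AddrOut K t (Φ (tl K t ((K.cell t).vx x))) x := by
  have hq : ∀ w, AV (K.R ^ 14) w → (K.cell t).Qc (ap K t x (root z0 w)) := fun w hw =>
    Qc_ap K t hx (AV_suffix (root_suffix _ w) hw) (core_root _ w)
  refine ⟨fun z hz => ⟨fun h1 => ?_, ?_⟩, fun w hw => ?_, fun w w' hw hw' e => ?_,
    fun w hw => ?_⟩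
  · obtain ⟨w, hw, e⟩ := read K t hx hz h1
    refine ⟨_, (AV_vis (ext (tl K t ((K.cell t).vx x))) w).2 hw, ?_⟩
    rw [hw_eq K _ _ ((AV_vis _ w).2 hw), bw_vis]
    exact mul_right_cancel e
  · rintro ⟨w, hw, rfl⟩
    have h1 := (AV_bw (ext (tl K t ((K.cell t).vx x))) w).2 hw
    rw [hw_eq K _ _ hw]
    exact (mem_Qp K t _).2 ⟨_, _, hq _ h1, TA_tp h1, ap_eq K t h1⟩
  · rw [hw_eq K _ _ hw, nr_aw K _ _ ((chain_bw _ w).2 hw.1), length_bw]
  · rw [hw_eq K _ _ hw, hw_eq K _ _ hw'] at e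
    rw [← vis_bw _ w, aw_inj K _ _ ((chain_bw _ w).2 hw.1) ((chain_bw _ w').2 hw'.1) e, vis_bw]
  · have h1 := (AV_bw (ext (tl K t ((K.cell t).vx x))) w).2 hw
    have h2 := AV_suffix (root_suffix (ext (Φ (tl K t ((K.cell t).vx x)))) w) hw
    rw [hw_eq K _ _ hw, hw_eq K _ _ h2]
    refine ⟨?_, fun y hy => ?_, ?_, sl_red (core_root _ w) h2.1, (root_suffix _ w).length_le⟩
    · rw [root_bw _ hw]
      exact hq _ h1
    · rw [root_bw _ hw]
      show nr (ap K t x _ * (ap K t x _)⁻¹) ≤ nr (ap K t x _ * _)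
      rw [ap_eq K t h1, gate K t (hq _ h1) hy (TA_tp h1), gate K t (hq _ h1) (hq _ h1) (TA_tp h1),
        mul_inv_cancel, (nr_zero _).2 rfl]
      omega
    · exact (cp_ap K t _).trans (by rw [sl_bw])

theorem hw_vis {s s' : Om j D (K.R ^ 14)} (hs : VisEq s s') (v : K.V) :
    ∀ w, AV (K.R ^ 14) w → K.hw (ext s) v w = K.hw (ext s') v w
  | [], _ => rfl
  | (i, none) :: w, h1 => by
    rw [Core.hw, Core.hw, hw_vis hs v w (AV_tail h1), ext, ext, dif_pos h1, dif_pos h1,
      hs ⟨_, h1⟩ i rfl]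
  | (i, some ι) :: w, h1 => by
    rw [Core.hw, Core.hw, hw_vis hs v w (AV_tail h1)]
    split_ifs with h2
    · rw [ext, ext, dif_pos (AV_tail h1), dif_pos (AV_tail h1), hs ⟨_, AV_tail h1⟩ i h2]
    · rfl

end AD

open AD in
theorem pAddr : StAddr := fun j h a b D _ K hR hg => by
  refine ⟨fun t v => Φ (tl K t v), fun v B => ?_, fun t x hx => out K t hx,
    fun s s' hs => hw_vis K hs⟩
  have : Finite {w : List (AL j D) // AV (K.R ^ 14) w} :=
    ((List.finite_length_le (AL j D) (K.R ^ 14)).subset fun w hw => hw.2).to_subtype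
  rw [← Nat.card_congr (Equiv.curry K.V _ (ZMod D)), ← card_comp _ (sto_inj K hR hg v) Φ Φ_inj B]
  exact congrArg (· * _) (Nat.card_congr
    ((Equiv.curry K.V _ (ZMod D)).symm.subtypeEquiv fun _ => Iff.rfl))

end Pool.Agent.P.MP_9167e9_an
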